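import Pool.Agent.H.MP_b2231e_al.Zorn

set_option autoImplicit false

open scoped commutatorElement

namespace Pool.Agent.H.MP_b2231e_al

theorem thmA {G : Type} [Group G] (hFC : FC G)
    (hT : Set.Finite {t | t ∈ Subgroup.center G ∧ t ∈ commutator G}) :
    PF G (Subgroup.center G) := by
  haveI : Finite ↥(Subgroup.center G ⊓ commutator G) := hT.to_subtype
  have he : Nat.card ↥(Subgroup.center G ⊓ commutator G) ≠ 0 := Nat.card_pos.ne'
  have hp := pow_mem hFC (Nat.card ↥(Subgroup.center G ⊓ commutator G)) fun t h1 h2 =>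
    congrArg Subtype.val (pow_card_eq_one' (G := ↥(Subgroup.center G ⊓ commutator G))
      (x := ⟨t, h1, h2⟩))
  obtain ⟨𝓕, h1, h2, h3⟩ := fam hFC hT
  haveI : ∀ U : 𝓕, U.1.Normal := fun U => (h1 U U.2).1
  haveI : ∀ U : 𝓕, U.1.FiniteIndex := fun U => (h1 U U.2).2.1
  obtain ⟨U, u1, u2, u3⟩ := twist hFC (G1 G) _ he (comm_mem hFC) hp (F := fun U : 𝓕 => G ⧸ U.1)
    (fun U => QuotientGroup.mk' U.1) (fun U => QuotientGroup.mk'_surjective _) (fun w hw =>
      ((h2 w hw).preimage Subtype.val_injective.injOn).subset fun U hU =>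
        ⟨U.2, fun h => hU ((QuotientGroup.eq_one_iff _).2 h)⟩)
  obtain ⟨ι, V, v1, v2, v3⟩ := pf_ab (G1 G) _ he (comm_mem hFC) hp
  refine ⟨_ ⊕ ι, Sum.elim U V, ?_, fun g => ?_, fun g => ⟨fun h => ?_, ?_⟩⟩
  · rintro (i | i)
    · exact u1 i
    · exact v1 i
  · refine (((u2 g).image Sum.inl).union ((v2 g).image Sum.inr)).subset ?_
    rintro (i | i) hi
    · exact Or.inl ⟨i, hi, rfl⟩
    · exact Or.inr ⟨i, hi, rfl⟩
  · have hg : g ∈ G1 G := (v3 g).1 fun i => h (Sum.inr i)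
    refine h3 g hg fun W hW => ?_
    haveI := (h1 W hW).1
    exact (QuotientGroup.eq_one_iff _).1 ((u3 ⟨W, hW⟩ g hg).1 (h (Sum.inl ⟨W, hW⟩)))
  · rintro h (i | i)
    · exact (u3 i g (center_le_G1 h)).2 ((QuotientGroup.eq_one_iff _).2 ((h1 i i.2).2.2 h))
    · exact (v3 g).2 (center_le_G1 h) i

theorem FC.quot {G : Type} [Group G] (h : FC G) (K : Subgroup G) [K.Normal] : FC (G ⧸ K) := by
  intro g
  induction g using QuotientGroup.induction_on with | H g =>
  refine ((h g).image (QuotientGroup.mk' K)).subset fun y hy => ?_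
  obtain ⟨c, rfl⟩ := isConj_iff.1 hy
  induction c using QuotientGroup.induction_on with | H c =>
  exact ⟨c * g * c⁻¹, isConj_iff.2 ⟨c, rfl⟩, rfl⟩

theorem thmB {G : Type} [Group G] (hFC : FC G) {ι : Type} {F : ι → Type} [∀ i, Group (F i)]
    [∀ i, Finite (F i)] (f : ↥(commutator G) →* ((i : ι) → F i)) (hf : Function.Injective f)
    (hfin : ∀ x, {i : ι | f x i ≠ 1}.Finite) : PF G (Subgroup.center G) := by
  let K : ι → Subgroup G := fun i =>
    ((((Pi.evalMonoidHom F i).comp f).ker).map (commutator G).subtype).normalCore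
  have hK : ∀ i x, x ∈ K i ↔ ∀ h : G, ∃ hx : h * x * h⁻¹ ∈ commutator G, f ⟨_, hx⟩ i = 1 := by
    intro i x
    refine forall_congr' fun h => ⟨?_, ?_⟩
    · rintro ⟨y, hy, e⟩
      refine ⟨e ▸ y.2, ?_⟩
      have : f y i = 1 := hy
      rw [← this]
      exact congrArg (fun z => f z i) (Subtype.ext e.symm)
    · rintro ⟨hx, e⟩
      exact ⟨⟨_, hx⟩, e, rfl⟩
  have hcm : ∀ a b : G, ⁅a, b⁆ ∈ commutator G := fun a b =>
    Subgroup.commutator_mem_commutator (Subgroup.mem_top _) (Subgroup.mem_top _)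
  have hcen : ∀ i (g : G), (g : G ⧸ K i) ∈ Subgroup.center (G ⧸ K i) ↔ ∀ x : G, ⁅x, g⁆ ∈ K i := by
    intro i g
    rw [Subgroup.mem_center_iff, QuotientGroup.forall_mk]
    refine forall_congr' fun x => ?_
    rw [← commutatorElement_eq_one_iff_mul_comm, ← QuotientGroup.eq_one_iff]
    rfl
  have hT : ∀ i, Set.Finite {t | t ∈ Subgroup.center (G ⧸ K i) ∧ t ∈ commutator (G ⧸ K i)} := by
    intro i
    have h1 : ∀ t : {t | t ∈ Subgroup.center (G ⧸ K i) ∧ t ∈ commutator (G ⧸ K i)},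
        ∃ y : commutator G, (y.1 : G ⧸ K i) = t := by
      rintro ⟨t, -, this⟩
      rw [commutator_def (G ⧸ K i), ← Subgroup.map_top_of_surjective _ (QuotientGroup.mk'_surjective (K i)),
        ← Subgroup.map_commutator] at this
      obtain ⟨y, hy, e⟩ := this
      exact ⟨⟨y, hy⟩, e⟩
    choose s hs using h1
    refine Set.finite_coe_iff.1 (Finite.of_injective (fun t => f (s t) i) fun t t' e => ?_)
    have e1 : f ((s t)⁻¹ * s t') i = 1 := by
      have e' : f (s t) i = f (s t') i := e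
      rw [map_mul, map_inv, Pi.mul_apply, Pi.inv_apply, e', inv_mul_cancel]
    have e2 : ((((s t)⁻¹ * s t' : commutator G) : G) : G ⧸ K i) ∈ Subgroup.center (G ⧸ K i) := by
      have := Subgroup.mul_mem _ (Subgroup.inv_mem _ t.2.1) t'.2.1
      rw [← hs, ← hs] at this
      exact this
    ext1
    rw [← hs, ← hs, QuotientGroup.eq]
    generalize hy : (s t)⁻¹ * s t' = y at e1 e2
    have e3 : (s t).1⁻¹ * (s t').1 = y.1 := by rw [← hy]; rfl
    rw [e3, hK]
    intro h
    obtain ⟨a1, a2⟩ := (hK i _).1 ((hcen i y).1 e2 h) 1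
    refine ⟨Subgroup.Normal.conj_mem inferInstance _ y.2 h, ?_⟩
    have : (⟨h * y * h⁻¹, Subgroup.Normal.conj_mem inferInstance _ y.2 h⟩ : commutator G) =
        ⟨_, a1⟩ * y := Subtype.ext (by simp [commutatorElement_def])
    rw [this, map_mul, Pi.mul_apply, a2, e1, one_mul]
  choose κ U u1 u2 u3 using fun i => thmA (hFC.quot (K i)) (hT i)
  have hpf : ∀ g : G, {i | (g : G ⧸ K i) ∉ Subgroup.center (G ⧸ K i)}.Finite := by
    intro g
    have h1 : (⋃ y ∈ Set.range fun x : G => ⁅x, g⁆, {h : G | IsConj y h}).Finite :=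
      (hFC.comm g).biUnion fun y _ => hFC y
    refine ((h1.preimage (Subtype.val_injective (p := (· ∈ commutator G))).injOn).biUnion
      fun y _ => hfin y).subset fun i hi => ?_
    by_contra hc
    refine hi ((hcen i g).2 fun x => (hK i _).2 fun h =>
      ⟨Subgroup.Normal.conj_mem inferInstance _ (hcm x g) h, ?_⟩)
    by_contra hne
    exact hc (Set.mem_iUnion₂.2
      ⟨⟨h * ⁅x, g⁆ * h⁻¹, Subgroup.Normal.conj_mem inferInstance _ (hcm x g) h⟩,
      Set.mem_iUnion₂.2 ⟨⁅x, g⁆, ⟨x, rfl⟩, isConj_iff.2 ⟨h, rfl⟩⟩, hne⟩)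
  refine ⟨Σ i, κ i, fun p => (U p.1 p.2).comap (QuotientGroup.mk' _), fun p => ?_, fun g => ?_,
    fun g => ⟨fun h => ?_, fun h p => ?_⟩⟩
  · haveI := (u1 p.1 p.2).1
    haveI := (u1 p.1 p.2).2
    exact ⟨inferInstance, ⟨by
      rw [Subgroup.index_comap_of_surjective _ (QuotientGroup.mk'_surjective _)]
      exact Subgroup.FiniteIndex.index_ne_zero⟩⟩
  · refine ((hpf g).biUnion fun i _ => (u2 i g).image (Sigma.mk i)).subset ?_
    rintro ⟨i, j⟩ hp
    exact Set.mem_biUnion (x := i) (fun h => hp ((u3 i g).2 h j)) ⟨j, hp, rfl⟩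
  · refine Subgroup.mem_center_iff.2 fun x => commutatorElement_eq_one_iff_mul_comm.1 ?_
    have : f ⟨_, hcm x g⟩ = f 1 := by
      rw [map_one]
      funext i
      obtain ⟨a1, a2⟩ := (hK i _).1 ((hcen i g).1 ((u3 i g).1 fun j => h ⟨i, j⟩) x) 1
      exact (congrArg (fun z => f z i) (Subtype.ext (by simp))).trans a2
    exact congrArg Subtype.val (hf this)
  · refine (u3 p.1 g).2 ((hcen _ g).2 fun x => ?_) p.2
    rw [commutatorElement_eq_one_iff_mul_comm.2 (Subgroup.mem_center_iff.1 h x)]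
    exact Subgroup.one_mem _

theorem PF.emb {G : Type} [Group G] {N : Subgroup G} [N.Normal] (h : PF G N) :
    ∃ (ι : Type) (F : ι → Type) (_ : ∀ i, Group (F i)) (_ : ∀ i, Finite (F i))
      (f : (G ⧸ N) →* ((i : ι) → F i)), Function.Injective f ∧ ∀ x, {i : ι | f x i ≠ 1}.Finite := by
  obtain ⟨ι, U, h1, h2, h3⟩ := h
  haveI := fun i => (h1 i).1
  haveI := fun i => (h1 i).2
  refine ⟨ι, fun i => G ⧸ U i, inferInstance, inferInstance,
    QuotientGroup.lift N (Pi.monoidHom fun i => QuotientGroup.mk' (U i)) fun g hg => ?_, ?_, ?_⟩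
  · funext i
    exact (QuotientGroup.eq_one_iff _).2 ((h3 g).2 hg i)
  · refine (injective_iff_map_eq_one _).2 fun x hx => ?_
    induction x using QuotientGroup.induction_on with | H g =>
    exact (QuotientGroup.eq_one_iff _).2 ((h3 g).1 fun i =>
      (QuotientGroup.eq_one_iff _).1 (congrFun hx i))
  · intro x
    induction x using QuotientGroup.induction_on with | H g =>
    exact (h2 g).subset fun i hi h => hi ((QuotientGroup.eq_one_iff _).2 h)

end Pool.Agent.H.MP_b2231e_al
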