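import Pool.Agent.H.MP_b2231e_al.Step

set_option autoImplicit false

open scoped commutatorElement

namespace Pool.Agent.H.MP_b2231e_al

variable {G : Type} [Group G]

theorem ext_closed (hFC : FC G) {L : Subgroup G} [L.Normal] (hL : Closed L) (g₀ : G) :
    ∃ (L' : Subgroup G) (M : ℕ → Set G), Closed L' ∧ L ≤ L' ∧ g₀ ∈ L' ∧ M 0 = ∅ ∧ Monotone M ∧
      (∀ k, (M k).Finite) ∧ ∀ E' : Set G, E'.Finite → E' ⊆ L' →
        ∃ E : Set G, E.Finite ∧ E ⊆ L ∧ ∃ k, Cn (E ∪ M k) ≤ Cn E' := by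
  classical
  have h1 : ∀ M : Finset G, ∃ X : Finset G, ∀ y, ∃ x ∈ X, x⁻¹ * y ∈ Jm L M := by
    intro M
    haveI := Jm_fi hFC hL M.finite_toSet
    obtain ⟨X, _, hX⟩ := reps ⊤ (Jm L (M : Set G))
    exact ⟨X, fun y => hX y trivial⟩
  choose r hr using h1
  obtain ⟨M, hM0, hM⟩ : ∃ M : ℕ → Finset G, M 0 = ∅ ∧
      ∀ k, M (k + 1) = insert g₀ (M k ∪ r (M k)) :=
    ⟨fun n => Nat.rec ∅ (fun _ A => insert g₀ (A ∪ r A)) n, rfl, fun _ => rfl⟩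
  have hmono : @Monotone ℕ (Set G) _ _ (fun k : ℕ => SetLike.coe (M k)) := by
    refine monotone_nat_of_le_succ fun k x hx => ?_
    rw [hM]; simp only [Finset.mem_coe] at hx; simp [hx]
  let S : Set G := L ∪ ⋃ k, (M k : Set G)
  have hS : ∀ E' : Set G, E'.Finite → E' ⊆ S →
      ∃ E : Set G, E.Finite ∧ E ⊆ L ∧ ∃ k, E' ⊆ E ∪ M k := by
    intro E' hE'
    induction E', hE' using Set.Finite.induction_on with
    | empty => exact fun _ => ⟨∅, Set.finite_empty, Set.empty_subset _, 0, Set.empty_subset _⟩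
    | @insert a s _ _ ih =>
      intro h
      obtain ⟨E, a1, a2, k, a3⟩ := ih ((Set.subset_insert _ _).trans h)
      rcases h (Set.mem_insert a s) with ha | ha
      · exact ⟨insert a E, a1.insert a, Set.insert_subset ha a2, k, by grind⟩
      · obtain ⟨j, hj⟩ := Set.mem_iUnion.1 ha
        refine ⟨E, a1, a2, max k j, Set.insert_subset (Or.inr (hmono (le_max_right k j) hj))
          (a3.trans (Set.union_subset_union_right _ (hmono (le_max_left k j))))⟩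
  have hkey : ∀ E' : Set G, E'.Finite → E' ⊆ Subgroup.normalClosure S →
      ∃ E : Set G, E.Finite ∧ E ⊆ L ∧ ∃ k, Cn (E ∪ M k) ≤ Cn E' := by
    intro E' h1 h2
    choose T t1 t2 t3 using fun x : E' => ncl (h2 x.2)
    haveI := h1.to_subtype
    obtain ⟨E, a1, a2, k, a3⟩ := hS (⋃ x, T x) (Set.finite_iUnion t1) (Set.iUnion_subset t2)
    exact ⟨E, a1, a2, k, fun g hg s hs => t3 ⟨s, hs⟩
      (Cn_anti ((Set.subset_iUnion T _).trans a3) hg) s rfl⟩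
  have hML : ∀ k, (M k : Set G) ⊆ Subgroup.normalClosure S := fun k x hx =>
    Subgroup.subset_normalClosure (Or.inr (Set.mem_iUnion.2 ⟨k, hx⟩))
  have hLL : L ≤ Subgroup.normalClosure S := fun x hx => Subgroup.subset_normalClosure (Or.inl hx)
  refine ⟨Subgroup.normalClosure S, fun k => M k, ⟨inferInstance, fun E' h1 h2 g => ?_⟩, hLL,
    hML 1 (by rw [hM]; simp), by simp [hM0], hmono, fun k => (M k).finite_toSet, hkey⟩
  obtain ⟨E, a1, a2, k, a3⟩ := hkey E' h1 h2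
  obtain ⟨x, hx, hj⟩ := hr (M k) g
  obtain ⟨l, hl, hc⟩ := hj E a1 a2
  refine ⟨x * l, Subgroup.mul_mem _ (hML (k + 1) (by rw [hM]; simp [hx])) (hLL hl), a3 ?_⟩
  convert hc using 1
  group

theorem ext_fam (hFC : FC G) (hT : Set.Finite {t | t ∈ Subgroup.center G ∧ t ∈ commutator G})
    {L : Subgroup G} (hL : Closed L) (g₀ : G) :
    ∃ (L' : Subgroup G) (𝓝 : Set (Subgroup G)), Closed L' ∧ L ≤ L' ∧ g₀ ∈ L' ∧
      (∀ U ∈ 𝓝, U.Normal ∧ U.FiniteIndex ∧ Qs L L' ∅ ≤ U) ∧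
      (∀ w ∈ G1 G, {U | U ∈ 𝓝 ∧ w ∉ U}.Finite) ∧
      ∀ w ∈ G1 G, (∀ U ∈ 𝓝, w ∈ U) → w ∈ Qs L L' ∅ := by
  haveI := hL.1
  obtain ⟨L', M, hL', hLL, hg, hM0, hmono, hfin, hkey⟩ := ext_closed hFC hL g₀
  haveI := hL'.1
  have h1 : ∀ k, ∃ X : Finset G, (∀ x ∈ X, x ∈ Jm L (M k) ⊓ L') ∧
      ∀ y ∈ Jm L (M k) ⊓ L', ∃ x ∈ X, x⁻¹ * y ∈ Jm L (M (k + 1)) := fun k =>
    haveI := Jm_fi hFC hL (hfin (k + 1)); reps _ _
  choose X hX1 hX2 using h1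
  choose U u1 u2 u3 u4 using fun (p : Σ k, X k) =>
    k3 hFC hT hL hLL (M p.1) (hX1 p.1 p.2.1 p.2.2).2 (hX1 p.1 p.2.1 p.2.2).1
  have hw : ∀ w ∈ G1 G, ∃ k, w ∈ Qs L L' (M k) := by
    intro w hw
    obtain ⟨E', a1, a2, a3⟩ := Subgroup.mem_iInf.1 hw ⟨L', hL'⟩
    obtain ⟨E, b1, b2, k, b3⟩ := hkey E' a1 a2
    exact ⟨k, E, b1, b2, fun x hx hc => a3 x hx (by rw [Set.union_empty]; exact b3 hc)⟩
  refine ⟨L', Set.range U, hL', hLL, hg, ?_, fun w hw' => ?_, fun w hw' hU => ?_⟩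
  · rintro _ ⟨p, rfl⟩
    exact ⟨u1 p, u2 p, (Qs_mono le_rfl le_rfl (Set.empty_subset _)).trans (u3 p)⟩
  · obtain ⟨k, hk⟩ := hw w hw'
    refine ((fin_sigma (A := fun k => X k) (Set.finite_lt_nat k)).image U).subset ?_
    rintro _ ⟨⟨p, rfl⟩, hp⟩
    refine ⟨p, ?_, rfl⟩
    by_contra hc
    exact hp (u3 p (Qs_mono le_rfl le_rfl (hmono (not_lt.1 hc)) hk))
  · obtain ⟨k, hk⟩ := hw w hw'
    rw [← hM0]
    induction k with
    | zero => exact hk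
    | succ k ih =>
      apply ih
      obtain ⟨E₀, a1, a2, a3⟩ := hk
      obtain ⟨E₁, b1, b2, b3⟩ := Subgroup.mem_iInf.1 hw' ⟨L, hL⟩
      obtain ⟨E₂, c1, c2, c3⟩ := k4 hFC hL (hfin k)
      have e1 : (E₀ ∪ E₁ ∪ E₂).Finite := (a1.union b1).union c1
      have e2 : E₀ ∪ E₁ ∪ E₂ ⊆ L := Set.union_subset (Set.union_subset a2 b2) c2
      refine ⟨_, e1, e2, fun y hy hc => ?_⟩
      obtain ⟨x, hx, hj⟩ := hX2 k y ⟨c3 (Cn_anti (by grind) hc), hy⟩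
      obtain ⟨l, hl, d1, d2⟩ := u4 ⟨k, x, hx⟩ w (hU _ ⟨_, rfl⟩) _ e1 e2
      obtain ⟨l', hl', d3⟩ := hj _ e1 e2
      have d4 : Commute (l'⁻¹ * (x⁻¹ * y)) w := a3 _ (L'.mul_mem (L'.inv_mem (hLL hl'))
        (L'.mul_mem (L'.inv_mem (hX1 k x hx).2) hy)) (Cn_anti (by grind) d3)
      have d5 : Commute (y * (l'⁻¹ * (x⁻¹ * y))⁻¹ * (l⁻¹ * x)⁻¹) w := by
        refine b3 _ ?_ ?_
        · have := L.mul_mem (Subgroup.Normal.conj_mem inferInstance _ hl' x) hl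
          convert this using 1
          group
        · exact Subgroup.mul_mem _ (Subgroup.mul_mem _ (Cn_anti (by grind) hc)
            (Subgroup.inv_mem _ (Cn_anti (by grind) d3))) (Subgroup.inv_mem _ (Cn_anti (by grind) d1))
      have := (d5.mul_left d2).mul_left d4
      rwa [inv_mul_cancel_right, inv_mul_cancel_right] at this

def Good (p : Subgroup G × Set (Subgroup G)) : Prop :=
  Closed p.1 ∧ (∀ U ∈ p.2, U.Normal ∧ U.FiniteIndex ∧ Subgroup.center G ≤ U) ∧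
    (∀ w ∈ G1 G, {U | U ∈ p.2 ∧ w ∉ U}.Finite) ∧
    ∀ w ∈ G1 G, (∀ U ∈ p.2, w ∈ U) → ∀ l ∈ p.1, Commute l w

def Rel (p q : {p : Subgroup G × Set (Subgroup G) // Good p}) : Prop :=
  p.1.1 ≤ q.1.1 ∧ p.1.2 ⊆ q.1.2 ∧ ∀ U ∈ q.1.2, U ∉ p.1.2 → Qs p.1.1 q.1.1 ∅ ≤ U

theorem Rel.trans {p q r : {p : Subgroup G × Set (Subgroup G) // Good p}} (h : Rel p q)
    (h' : Rel q r) : Rel p r := by
  refine ⟨h.1.trans h'.1, h.2.1.trans h'.2.1, fun U hU hU' => ?_⟩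
  by_cases hq : U ∈ q.1.2
  · exact (Qs_mono le_rfl h'.1 subset_rfl).trans (h.2.2 U hq hU')
  · exact (Qs_mono h.1 le_rfl subset_rfl).trans (h'.2.2 U hU hq)

theorem chain_bd (c : Set {p : Subgroup G × Set (Subgroup G) // Good p}) (hc : IsChain Rel c) :
    ∃ ub, ∀ a ∈ c, Rel a ub := by
  rcases c.eq_empty_or_nonempty with rfl | ⟨a₀, ha₀⟩
  · refine ⟨⟨(⊥, ∅), ⟨inferInstance, fun E _ h g => ⟨1, Subgroup.one_mem _, fun s hs k => ?_⟩⟩,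
      by simp, by simp, fun w _ _ l hl => ?_⟩, by simp⟩
    · rw [Subgroup.mem_bot.1 (h hs)]; simp
    · rw [Subgroup.mem_bot.1 hl]; simp
  have hrefl : ∀ a : {p : Subgroup G × Set (Subgroup G) // Good p}, Rel a a :=
    fun a => ⟨le_rfl, subset_rfl, fun U h h' => absurd h h'⟩
  have hdir : ∀ a ∈ c, ∀ b ∈ c, ∃ d ∈ c, Rel a d ∧ Rel b d := by
    intro a ha b hb
    by_cases hab : a = b
    · exact ⟨b, hb, hab ▸ hrefl a, hrefl b⟩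
    · rcases hc ha hb hab with h | h
      · exact ⟨b, hb, h, hrefl b⟩
      · exact ⟨a, ha, hrefl a, h⟩
  let L : Subgroup G :=
    { carrier := {g | ∃ a ∈ c, g ∈ a.1.1}
      one_mem' := ⟨a₀, ha₀, Subgroup.one_mem _⟩
      mul_mem' := by
        rintro x y ⟨a, ha, hx⟩ ⟨b, hb, hy⟩
        obtain ⟨d, hd, h1, h2⟩ := hdir a ha b hb
        exact ⟨d, hd, Subgroup.mul_mem _ (h1.1 hx) (h2.1 hy)⟩
      inv_mem' := by
        rintro x ⟨a, ha, hx⟩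
        exact ⟨a, ha, Subgroup.inv_mem _ hx⟩ }
  have hle : ∀ a ∈ c, a.1.1 ≤ L := fun a ha x hx => ⟨a, ha, hx⟩
  have hE : ∀ E : Set G, E.Finite → E ⊆ L → ∃ a ∈ c, E ⊆ a.1.1 := by
    intro E hE
    induction E, hE using Set.Finite.induction_on with
    | empty => exact fun _ => ⟨a₀, ha₀, Set.empty_subset _⟩
    | @insert x s _ _ ih =>
      intro h
      obtain ⟨a, ha, h1⟩ := ih ((Set.subset_insert _ _).trans h)
      obtain ⟨b, hb, h2⟩ := h (Set.mem_insert x s)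
      obtain ⟨d, hd, h3, h4⟩ := hdir a ha b hb
      exact ⟨d, hd, Set.insert_subset (h4.1 h2) (h1.trans h3.1)⟩
  have hL : Closed L := by
    refine ⟨⟨?_⟩, fun E h1 h2 g => ?_⟩
    · rintro x ⟨a, ha, hx⟩ k
      exact ⟨a, ha, a.2.1.1.conj_mem x hx k⟩
    · obtain ⟨a, ha, h3⟩ := hE E h1 h2
      obtain ⟨l, hl, h4⟩ := a.2.1.2 E h1 h3 g
      exact ⟨l, hle a ha hl, h4⟩
  have hrel : ∀ a ∈ c, ∀ U, (∃ b ∈ c, U ∈ b.1.2) → U ∉ a.1.2 → Qs a.1.1 L ∅ ≤ U := by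
    rintro a ha U ⟨b, hb, h1⟩ h2
    obtain ⟨d, hd, h3, h4⟩ := hdir a ha b hb
    exact (Qs_mono le_rfl (hle d hd) subset_rfl).trans (h3.2.2 U (h4.2.1 h1) h2)
  refine ⟨⟨(L, {U | ∃ a ∈ c, U ∈ a.1.2}), hL, ?_, fun w hw => ?_, ?_⟩,
    fun a ha => ⟨hle a ha, fun U hU => ⟨a, ha, hU⟩, hrel a ha⟩⟩
  · rintro U ⟨a, _, hU⟩
    exact a.2.2.1 U hU
  · obtain ⟨E, a1, a2, a3⟩ := Subgroup.mem_iInf.1 hw ⟨L, hL⟩
    obtain ⟨a, ha, h3⟩ := hE E a1 a2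
    refine (a.2.2.2.1 w hw).subset fun U hU => ⟨?_, hU.2⟩
    by_contra h
    exact hU.2 (hrel a ha U hU.1 h ⟨E, a1, h3, a3⟩)
  · rintro w hw h l ⟨a, ha, hl⟩
    exact a.2.2.2.2 w hw (fun U hU => h U ⟨a, ha, hU⟩) l hl

theorem fam (hFC : FC G) (hT : Set.Finite {t | t ∈ Subgroup.center G ∧ t ∈ commutator G}) :
    ∃ 𝓕 : Set (Subgroup G), (∀ U ∈ 𝓕, U.Normal ∧ U.FiniteIndex ∧ Subgroup.center G ≤ U) ∧
      (∀ w ∈ G1 G, {U | U ∈ 𝓕 ∧ w ∉ U}.Finite) ∧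
      ∀ w ∈ G1 G, (∀ U ∈ 𝓕, w ∈ U) → w ∈ Subgroup.center G := by
  obtain ⟨m, hm⟩ := exists_maximal_of_chains_bounded (chain_bd (G := G)) Rel.trans
  refine ⟨m.1.2, m.2.2.1, m.2.2.2.1, fun w hw h => Subgroup.mem_center_iff.2 fun g => ?_⟩
  refine m.2.2.2.2 w hw h g ?_
  obtain ⟨L', 𝓝, h1, h2, h3, h4, h5, h6⟩ := ext_fam hFC hT m.2.1 g
  refine (hm ⟨(L', m.1.2 ∪ 𝓝), h1, ?_, fun w hw => ?_, fun w hw h l hl => ?_⟩
    ⟨h2, Set.subset_union_left, fun U hU hU' => (h4 U (hU.resolve_left hU')).2.2⟩).1 h3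
  · rintro U (hU | hU)
    · exact m.2.2.1 U hU
    · exact ⟨(h4 U hU).1, (h4 U hU).2.1, (center_le_Qs _ _ _).trans (h4 U hU).2.2⟩
  · refine ((m.2.2.2.1 w hw).union (h5 w hw)).subset ?_
    rintro U ⟨hU | hU, hU'⟩
    · exact Or.inl ⟨hU, hU'⟩
    · exact Or.inr ⟨hU, hU'⟩
  · obtain ⟨E, a1, a2, a3⟩ := h6 w hw fun U hU => h U (Or.inr hU)
    obtain ⟨l', b1, b2⟩ := m.2.1.2 E a1 a2 l
    have := (m.2.2.2.2 w hw (fun U hU => h U (Or.inl hU)) l' b1).mul_left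
      (a3 _ (L'.mul_mem (L'.inv_mem (h2 b1)) hl) (by rwa [Set.union_empty]))
    simpa using this

end Pool.Agent.H.MP_b2231e_al
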